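import Pool.Agent.H95.Sr1

set_option autoImplicit false
open Pool.Agent.H95.Sr1

theorem Pool.Agent.Results.MP_c26838_an.No.result :
    ∃ (A : ℕ → Type) (_ : ∀ n, NormedRing (A n)) (_ : ∀ n, NormedAlgebra ℂ (A n)),
      (∀ n, CompleteSpace (A n)) ∧ (∀ n, ‖(1 : A n)‖ = 1) ∧ AsySR1 A ∧ ∀ n, ¬ SR1 (A n) :=
  Pool.Agent.H95.Sr1.main
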